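import Mathlib
import Pool.Agent.MP_1e96f1_co.Defs
import Pool.Agent.BX.Steiner

namespace Pool.Agent.Results.MP_1e96f1_co.SteinerInside

open Finset Pool.Agent.MP_1e96f1_co Pool.Agent.BX

/-- Let `(Ω, Bs)` be a `β(i)` design with parameter `(v, k, d)`, `i ≤ k - d`, and let `B0` be a block.
For every `i`-subset `Q` of the complement of `B0` the sets `B0 \ B`, where `B` runs through the
blocks containing `Q` with `|B ∩ B0| = d`, form a Steiner system `S(k - d + 1 - i, k - d, k)` on `B0`;
for every `(k - d + 1 - i)`-subset `P` of `B0` the sets `B \ B0`, where `B` runs through the blocks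
disjoint from `P` with `|B ∩ B0| = d`, form a Steiner system `S(i, k - d, v - k)` on the complement
of `B0`. -/
theorem result {Ω : Type*} [Fintype Ω] [DecidableEq Ω] (Bs : Finset (Finset Ω))
    (v k d i : ℕ) (hD : IsDesign Bs v k d) (hB : IsBeta Bs v d i) (hi : i ≤ k - d)
    (B0 : Finset Ω) (hB0 : B0 ∈ Bs) :
    (∀ Q : Finset Ω, Disjoint Q B0 → Q.card = i →
      IsSteiner ((Bs.filter (fun B => Q ⊆ B ∧ (B ∩ B0).card = d)).image (fun B => B0 \ B)) B0
        (k - d + 1 - i) (k - d)) ∧
    (∀ P ⊆ B0, P.card = k - d + 1 - i →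
      IsSteiner ((Bs.filter (fun B => Disjoint P B ∧ (B ∩ B0).card = d)).image (fun B => B \ B0))
        B0ᶜ i (k - d)) :=
  steiner_inside hD hB hi hB0

end Pool.Agent.Results.MP_1e96f1_co.SteinerInside
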