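import Mathlib
import Pool.Agent.MP_1e96f1_co.Defs
import Pool.Agent.BZ.Fin

namespace Pool.Agent.Results.MP_1e96f1_co.ThreeCases

open Pool.Agent.MP_1e96f1_co

/-- Every `β(i)` design with parameter `(v, k, d)`, `d > 0`, `1 < i < k - d`, has
`(i, k - d) = (2, 3)`, `(2, 4)` or `(3, 4)`. -/
theorem result {Ω : Type*} [Fintype Ω] [DecidableEq Ω] (Bs : Finset (Finset Ω))
    (v k d i : ℕ) (hD : IsDesign Bs v k d) (hd : 0 < d) (hB : IsBeta Bs v d i)
    (hi : 1 < i) (hi' : i < k - d) :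
    (i = 2 ∧ (k - d = 3 ∨ k - d = 4)) ∨ (i = 3 ∧ k - d = 4) :=
  Pool.Agent.BZ.main hD hd hB hi hi'

end Pool.Agent.Results.MP_1e96f1_co.ThreeCases
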