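import Mathlib
import Pool.Agent.MP_1e96f1_co.Defs
import Pool.Agent.BW.Main

namespace Pool.Agent.Results.MP_1e96f1_co.TwoCases

open Pool.Agent.MP_1e96f1_co

/-- Every `β(i)` design with parameter `(v, k, d)`, `d > 0`, `1 < i < k - d`, has
`(i, k - d) = (2, 3)`, or is a Steiner system `S(5, 8, 24)` (then `i = 2`), or is the complementary
design of a Steiner system `S(5, 8, 24)` (then `i = 3`). -/
theorem result {Ω : Type*} [Fintype Ω] [DecidableEq Ω] (Bs : Finset (Finset Ω))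
    (v k d i : ℕ) (hD : IsDesign Bs v k d) (hd : 0 < d) (hB : IsBeta Bs v d i)
    (hi : 1 < i) (hi' : i < k - d) :
    (i = 2 ∧ k - d = 3) ∨
    (i = 2 ∧ v = 24 ∧ k = 8 ∧ d = 4 ∧
      ∀ X : Finset Ω, X.card = 5 → ∃! B, B ∈ Bs ∧ X ⊆ B) ∨
    (i = 3 ∧ v = 24 ∧ k = 16 ∧ d = 12 ∧
      ∀ X : Finset Ω, X.card = 5 → ∃! B, B ∈ Bs ∧ X ⊆ Bᶜ) :=
  Pool.Agent.BW.main hD hd hB hi hi'

end Pool.Agent.Results.MP_1e96f1_co.TwoCases
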